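import Pool.Agent.H57.PC.Def

/-!
# H57-PC-DEF2: definitions for the lower bound (MP_b39724_nt, Sylow subgroups of class at most 3)

* `GP.Bi i ⊆ W`: the subspace `[V, g i]` (the values `β v (s i)`).
* `xi Dg ψ i c`: for `c = β v (s i) ∈ Bi i` the value `ψ v` (well defined if `ψ` vanishes on the `v` with `β v (s i) = 0`), the character of `Bi i` given by `ψ`.
* `InJ0 Dg ψ`: the unlinked families of characters.
* `AWf Dg Fr b E ε ψ f`: the contribution of the constant family `ψ` to `FW f` after expanding `1[cq = 0] = 1[cq ∈ Bi] #Bi⁻¹ ∑ χ ep (χ cq)`.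
* `Big T f`: every class has a prime of norm `> T`.
* `F0`, `LB0`: the sum over the families with trivial classes at `S0`, level one data `b = 1`, no extra ramification, and its lower bound.
-/

set_option autoImplicit false

open scoped NumberField
open IsDedekindDomain
open scoped Classical

noncomputable section

namespace H57.PC

open H63.MA H38.BB H38.BG

section group

variable {p m l w N : ℕ} {P R : Type} [Group P] [Group R]

/-- the subspace `[V, g i]` of `W` -/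
def GP.Bi (Dg : GP p m l w N P R) (i : Fin N) : Submodule (ZMod p) (Fin w → ZMod p) :=
  LinearMap.range (Dg.β.flip (Dg.s i))

/-- the character of `Bi i` given by `ψ` -/
def xi (Dg : GP p m l w N P R) (ψ : Fin l → ZMod p) (i : Fin N) (c : Fin w → ZMod p) : ZMod p :=
  if h : ∃ v, Dg.β v (Dg.s i) = c then dt ψ h.choose else 0

/-- the unlinked families of characters -/
def InJ0 (Dg : GP p m l w N P R) (ψ : Fin N → Fin l → ZMod p) : Prop :=
  (∀ i v, Dg.β v (Dg.s i) = 0 → dt (ψ i) v = 0) ∧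
    ∀ i j k, dt (ψ i) (Dg.kV (Dg.s j) (Dg.s k)) + dt (ψ j) (Dg.kV (Dg.s k) (Dg.s i)) +
      dt (ψ k) (Dg.kV (Dg.s i) (Dg.s j)) = 0

/-- the finite set of the unlinked families -/
def J0 [NeZero p] (Dg : GP p m l w N P R) : Finset (Fin N → Fin l → ZMod p) :=
  Finset.univ.filter fun ψ => InJ0 Dg ψ

end group

section loc

variable {K : Type} [Field K] [NumberField K] {p : ℕ} {ζ : K} {D : RD0 K p ζ} {Ω : Type}
  [Field Ω] [Algebra K Ω] {m l w N : ℕ} {P R : Type} [Group P] [Group R]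

/-- the contribution of the constant family `ψ` -/
def AWf [NeZero p] {L : LDs D Ω} (Dg : GP p m l w N P R) (Fr : FR L) (b : Fin m → Kˣ)
    (E : Finset (Pl K)) (ε : Pl K → Gal(Ω/K) → R) (ψ : Fin N → Fin l → ZMod p)
    (f : Fin N → Finset (Pl K)) : ℂ :=
  ∑ ρ ∈ RHf L Dg b E ε f,
    if ∀ i, ∀ v ∈ f i, cq Dg Fr ρ v ∈ Dg.Bi i then
      ((∏ i, ((Dg.Wn i : ℝ) / Nat.card (Dg.Bi i)) ^ (f i).card : ℝ) : ℂ) *
        ep p (∑ i, ∑ v ∈ f i, xi Dg (ψ i) i (cq Dg Fr ρ v)) else 0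

/-- every class has a prime of norm `> T` -/
def Big (T : ℝ) (f : Fin N → Finset (Pl K)) : Prop := ∀ i, ∃ v ∈ f i, T < (nm v : ℝ)

/-- the families of the lower bound -/
def Fam0 (D : RD0 K p ζ) (N : ℕ) (Y : ℝ) : Finset (Fin N → Finset (Pl K)) :=
  (Fintype.piFinset fun _ : Fin N => GF D Y).filter fun f =>
    Dj f ∧ ∏ i, nr (f i) ≤ Y ∧ ∀ i, qf D (f i) = 0

/-- the sum over the families with trivial classes -/
def F0 [NeZero p] {L : LDs D Ω} (Dg : GP p m l w N P R) (Fr : FR L) (Y : ℝ) : ℝ :=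
  ∑ f ∈ Fam0 D N Y, if SpR Dg.cr (fun _ => (1 : Kˣ)) f then
    FW Dg Fr (fun _ => 1) ∅ (fun _ _ => 1) f else 0

/-- the lower bound -/
def LB0 [NeZero p] {L : LDs D Ω} (Dg : GP p m l w N P R) (Fr : FR L) : Prop :=
  ∃ c Y₀ : ℝ, 0 < c ∧ 3 ≤ Y₀ ∧ ∀ Y : ℝ, Y₀ ≤ Y → c * Y * Real.log Y ^ (N - 1) ≤ F0 Dg Fr Y

end loc

end H57.PC
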