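import Pool.Agent.H38.BG.TFrob
import Pool.Agent.H63.MA.GUpA

/-!
# H57-PC-DEF: Sylow subgroups of class at most 3 (MP_b39724_nt), definitions

`P` a finite `p`-group of class `≤ 3` generated by the elements of the typed classes (which have order `p`), `W = γ_3 P = ker q`, `R = P / W`,
`V = γ_2 R = ker π`, `U = R / V = F_p^m`. `V = F_p^l` (coordinates `cv`), `W = F_p^w` (coordinates `cw`), `kV : U × U → V` and `β : V × U → W` the
commutator maps. `s i ∈ U` the image of `g i`. `[x, y] = x y x⁻¹ y⁻¹`.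
* `GP.C i`: the image in `U` of the centraliser of `g i`. `GP.cr`: the class data `(s i, ann (C i))`, `#ann (C i) = [U : C i]`.
* `GP.cm r r'`: the coordinates of the commutator of lifts of `r, r' ∈ R` (used for commuting `r, r'`: an element of `W`).
* `FR L`: Frobenius elements at the primes outside `S0` (they work for all homomorphisms).
* `RH`: the homomorphisms `ρ : Γ → R` of finite type with Kummer data `akR D Dg.cr b f`, of type `i` at `v ∈ f i`, equal to `ε v` on the inertia group at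
  `v ∈ E`, unramified at the other `v ∉ S0`.
* `cq Dg Fr ρ v ∈ F_p^w`: the commutator of lifts of `ρ (F v)`, `ρ (t v)`: `ρ` lifts to `P` locally at the typed prime `v` iff it is `0`.
* `Wn i`: the number of the elements of the class of `g i` over an element of `R`.
* `FW f`: the sum over `ρ ∈ RH f` of `∏ Wn i` if `cq = 0` at all typed primes: the number of homomorphisms `Γ → P` with these data, up to a constant.
* `FSum`: the sum of `FW f` over all families `f` of disjoint sets of good primes outside `E` with `∏ nr (f i) ≤ Y` and the spanning condition `SpR`.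
-/

set_option autoImplicit false

open scoped NumberField
open IsDedekindDomain
open scoped Classical

noncomputable section

namespace H57.PC

open H63.MA H38.BB H38.BG

/-- coordinates of a group of class at most 3 generated by the classes of the `g i` -/
structure GP (p m l w N : ℕ) (P R : Type) [Group P] [Group R] where
  q : P →* R
  qs : Function.Surjective q
  π : R →* Multiplicative (Fin m → ZMod p)
  πs : Function.Surjective π
  /- `V = ker π` -/
  vcen : ∀ v, π v = 1 → ∀ r, v * r = r * v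
  cv : Fin l → R → ZMod p
  vadd : ∀ k u v, π u = 1 → π v = 1 → cv k (u * v) = cv k u + cv k v
  vinj : ∀ v, π v = 1 → (∀ k, cv k v = 0) → v = 1
  vsur : ∀ y : Fin l → ZMod p, ∃ v, π v = 1 ∧ ∀ k, cv k v = y k
  /- `W = ker q` -/
  wcen : ∀ u, q u = 1 → ∀ x, u * x = x * u
  cw : Fin w → P → ZMod p
  wadd : ∀ k u v, q u = 1 → q v = 1 → cw k (u * v) = cw k u + cw k v
  winj : ∀ u, q u = 1 → (∀ k, cw k u = 0) → u = 1
  wsur : ∀ y : Fin w → ZMod p, ∃ u, q u = 1 ∧ ∀ k, cw k u = y k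
  /- the commutator maps -/
  kV : (Fin m → ZMod p) →ₗ[ZMod p] (Fin m → ZMod p) →ₗ[ZMod p] (Fin l → ZMod p)
  hk : ∀ r r' k, cv k (r * r' * r⁻¹ * r'⁻¹) =
    kV (Multiplicative.toAdd (π r)) (Multiplicative.toAdd (π r')) k
  β : (Fin l → ZMod p) →ₗ[ZMod p] (Fin m → ZMod p) →ₗ[ZMod p] (Fin w → ZMod p)
  hβ : ∀ x y k, π (q x) = 1 → cw k (x * y * x⁻¹ * y⁻¹) =
    β (fun j => cv j (q x)) (Multiplicative.toAdd (π (q y))) k
  kspan : Submodule.span (ZMod p) {v | ∃ x y, v = kV x y} = ⊤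
  βspan : Submodule.span (ZMod p) {u | ∃ v x, u = β v x} = ⊤
  /- the classes -/
  g : Fin N → P
  pow : ∀ i, g i ^ p = 1
  ne : ∀ i, g i ≠ 1
  uni : ∀ i j, IsConj (g i) (g j) → i = j
  gen : ∀ H : Subgroup P, (∀ i x, IsConj x (g i) → x ∈ H) → H = ⊤

section group

variable {p m l w N : ℕ} {P R : Type} [Group P] [Group R]

/-- the image of `g i` in `U` -/
def GP.s (Dg : GP p m l w N P R) (i : Fin N) : Fin m → ZMod p :=
  Multiplicative.toAdd (Dg.π (Dg.q (Dg.g i)))

/-- the image in `U` of the centraliser of `g i` -/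
def GP.C [NeZero p] (Dg : GP p m l w N P R) (i : Fin N) :
    Submodule (ZMod p) (Fin m → ZMod p) where
  carrier := {u | ∃ x : P, x * Dg.g i = Dg.g i * x ∧ Multiplicative.toAdd (Dg.π (Dg.q x)) = u}
  add_mem' := by
    rintro _ _ ⟨x, hx, rfl⟩ ⟨y, hy, rfl⟩
    refine ⟨x * y, ?_, ?_⟩
    · rw [mul_assoc, hy, ← mul_assoc, hx, mul_assoc]
    · rw [map_mul, map_mul, toAdd_mul]
  zero_mem' := ⟨1, by rw [one_mul, mul_one], by rw [map_one, map_one, toAdd_one]⟩
  smul_mem' := by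
    rintro r _ ⟨x, hx, rfl⟩
    refine ⟨x ^ r.val, (show Commute x (Dg.g i) from hx).pow_left r.val, ?_⟩
    rw [map_pow, map_pow, toAdd_pow]
    funext k
    rw [Pi.smul_apply, Pi.smul_apply, smul_eq_mul, nsmul_eq_mul, ZMod.natCast_zmod_val]

/-- the annihilator of a subspace -/
def ann0 (C : Submodule (ZMod p) (Fin m → ZMod p)) : Submodule (ZMod p) (Fin m → ZMod p) where
  carrier := {θ | ∀ u ∈ C, dt θ u = 0}
  add_mem' := by
    intro a b ha hb u hu
    have h : dt (a + b) u = dt a u + dt b u := by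
      simp only [dt, Pi.add_apply, add_mul, Finset.sum_add_distrib]
    rw [h, ha u hu, hb u hu, add_zero]
  zero_mem' := by
    intro u _
    simp [dt]
  smul_mem' := by
    intro r a ha u hu
    have h : dt (r • a) u = r * dt a u := by
      simp only [dt, Pi.smul_apply, smul_eq_mul, Finset.mul_sum, mul_assoc]
    rw [h, ha u hu, mul_zero]

/-- the class data -/
def GP.cr [NeZero p] (Dg : GP p m l w N P R) : CR p m N where
  x := Dg.s
  Θ i := ann0 (Dg.C i)
  self i θ hθ := hθ _ ⟨Dg.g i, rfl, rfl⟩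

/-- the coordinates of the commutator of lifts of `r`, `r'` -/
def GP.cm (Dg : GP p m l w N P R) (r r' : R) (k : Fin w) : ZMod p :=
  Dg.cw k (Function.surjInv Dg.qs r * Function.surjInv Dg.qs r' *
    (Function.surjInv Dg.qs r)⁻¹ * (Function.surjInv Dg.qs r')⁻¹)

/-- the number of the elements of the class of `g i` over `q (g i)` -/
def GP.Wn (Dg : GP p m l w N P R) (i : Fin N) : ℕ :=
  Nat.card {x : P // IsConj x (Dg.g i) ∧ Dg.q x = Dg.q (Dg.g i)}

end group

section loc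

variable {K : Type} [Field K] [NumberField K] {p : ℕ} {ζ : K} {D : RD0 K p ζ} {Ω : Type}
  [Field Ω] [Algebra K Ω] {m l w N : ℕ} {P R : Type} [Group P] [Group R]

/-- Frobenius elements at the primes outside `S0` -/
structure FR (L : LDs D Ω) where
  F : Pl K → Gal(Ω/K)
  fr : ∀ v (hv : v ∉ D.S0), ∀ x : 𝓞 Ω, F v • x - x ^ nm v ∈ (L.ld v hv).P
  kf : ∀ v, v ∉ D.S0 → ∀ a : Kˣ, kk p ζ a (F v) = D.LL v a
  com : ∀ v, v ∉ D.S0 → ∀ (H : Type) [Group H] [Finite H] (φ : Gal(Ω/K) →* H), H38.ML.FT φ →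
    (∀ τ ∈ inr L v, φ τ ^ p = 1) → φ (F v) * φ (L.t v) = φ (L.t v) * φ (F v)

/-- the homomorphisms to `R` with given data -/
def RH [NeZero p] (L : LDs D Ω) (Dg : GP p m l w N P R) (b : Fin m → Kˣ) (E : Finset (Pl K))
    (ε : Pl K → Gal(Ω/K) → R) (f : Fin N → Finset (Pl K)) : Set (Gal(Ω/K) →* R) :=
  {ρ | H38.ML.FT ρ ∧
    (∀ (σ : Gal(Ω/K)) k, kk p ζ (akR D Dg.cr b f k) σ = Multiplicative.toAdd (Dg.π (ρ σ)) k) ∧
    (∀ i, ∀ v ∈ f i, IsConj (ρ (L.t v)) (Dg.q (Dg.g i)) ∧ ∀ τ ∈ inr L v, ρ τ ^ p = 1) ∧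
    (∀ v ∈ E, ∀ τ ∈ inr L v, ρ τ = ε v τ) ∧
    ∀ v, v ∉ D.S0 → v ∉ E → (∀ i, v ∉ f i) → ∀ τ ∈ inr L v, ρ τ = 1}

/-- the commutator of lifts of `ρ (F v)`, `ρ (t v)` -/
def cq {L : LDs D Ω} (Dg : GP p m l w N P R) (Fr : FR L) (ρ : Gal(Ω/K) →* R) (v : Pl K) :
    Fin w → ZMod p := Dg.cm (ρ (Fr.F v)) (ρ (L.t v))

/-- the homomorphisms with given data as a finite set (see `rh_finite`) -/
def RHf [NeZero p] (L : LDs D Ω) (Dg : GP p m l w N P R) (b : Fin m → Kˣ) (E : Finset (Pl K))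
    (ε : Pl K → Gal(Ω/K) → R) (f : Fin N → Finset (Pl K)) : Finset (Gal(Ω/K) →* R) :=
  if h : (RH L Dg b E ε f).Finite then h.toFinset else ∅

/-- the number of homomorphisms to `P` with given data, up to a constant -/
def FW [NeZero p] {L : LDs D Ω} (Dg : GP p m l w N P R) (Fr : FR L) (b : Fin m → Kˣ)
    (E : Finset (Pl K)) (ε : Pl K → Gal(Ω/K) → R) (f : Fin N → Finset (Pl K)) : ℝ :=
  ∑ ρ ∈ RHf L Dg b E ε f,
    if ∀ i, ∀ v ∈ f i, cq Dg Fr ρ v = 0 then ∏ i, (Dg.Wn i : ℝ) ^ (f i).card else 0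

/-- the sum over the families -/
def FSum [NeZero p] {L : LDs D Ω} (Dg : GP p m l w N P R) (Fr : FR L) (b : Fin m → Kˣ)
    (E : Finset (Pl K)) (ε : Pl K → Gal(Ω/K) → R) (Y : ℝ) : ℝ :=
  ∑ f ∈ Fintype.piFinset (fun _ : Fin N => GF D Y),
    if Dj f ∧ (∀ i, Disjoint (f i) E) ∧ ∏ i, nr (f i) ≤ Y ∧ SpR Dg.cr b f then
      FW Dg Fr b E ε f else 0

end loc

end H57.PC
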